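import Pool.Agent.H608L.CofB

/-!
# MP_74a7a6_gt: a Lusin set with `S₁(𝒦_Ω, 𝒦_Ω)` from `cof(meager) = ℵ₁`

Scheepers obtained a Lusin set with the property `S₁(𝒦_Ω, 𝒦_Ω)` from `◇`. Here the continuum hypothesis,
or even the existence of `ℵ₁` meager sets which are cofinal among the meager subsets of the Cantor
space, is enough; the property holds for all subspaces of the set; and the set is found inside any given
nonmeager set `Z` (for instance the whole Cantor space). So a model as asked for in the
question must satisfy `cof(meager) > ℵ₁`, in particular it must violate the continuum hypothesis.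

Proof. Let `B n a`, `a < ω₁`, be cofinal families of meager sets in the finite powers of the Cantor space.
By recursion on `a` a point `x a ∈ Z` is chosen outside all one-dimensional meager sections, at tuples of
the points `x b` with `b < a`, of the sets `B n b` with `b < a`. By induction on `n` and the theorem of
Kuratowski and Ulam each meager subset of the `n`-th power contains no tuple `x (a 1), …, x (a n)` with
different `a i` above some bound. So the set of all `x a` is strongly Lusin: each meager set `M ⊆ X^n`
contains no `n`-tuple of distinct points off some countable set. This implies `S₁(𝒦_Ω, 𝒦_Ω)`.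
-/

set_option autoImplicit false

namespace Pool.Agent.Results.MP_74a7a6_gt.CofMeager

open Set Topology H608L

theorem result (h : Cardinal.continuum.{0} = Cardinal.aleph 1 ∨ CofMeagerLe)
    (Z : Set (ℕ → Bool)) (hZ : ¬ IsMeagre Z) :
    ∃ X : Set (ℕ → Bool), X ⊆ Z ∧ IsLusinSet ↥X ∧ StronglyLusin ↥X ∧ SOne ↥X ∧
      ∀ Y : Set ↥X, SOne ↥Y := by
  have h' : CofMeagerLe := h.elim cofMeagerLe_of_CH id
  obtain ⟨X, hXZ, hX, hS⟩ := exists_stronglyLusin h' Z hZ
  have hS' := stronglyLusin_iff.1 hS
  exact ⟨X, hXZ, hX, hS, sOne_of_SL hS', fun Y => sOne_of_SL (fun n => (hS' n).sub Y)⟩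

end Pool.Agent.Results.MP_74a7a6_gt.CofMeager
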