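import Pool.Agent.H608L.PartB

/-!
# MP_74a7a6_gt: the hereditary case of Scheepers' question

For a Lusin set `X` the following are equivalent, in ZFC:

* (1) each countable `C ⊆ X` is contained in a countable `D ⊆ X` such that `X \ D` is `𝒦_Ω`-Lindelöf;
* (2) every subspace of `X` is `𝒦_Ω`-Lindelöf;
* (3) `X` and all subspaces of `X` satisfy `S₁(𝒦_Ω, 𝒦_Ω)`;
* (4) `X` is strongly Lusin: for all `n` and all meager `M ⊆ X^n` there is a countable `C ⊆ X` such that
  no `n`-tuple of distinct points of `X \ C` belongs to `M`.

So if the co-countable `𝒦_Ω`-Lindelöf subspaces of some Lusin set are cofinal in this sense (for instance, if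
all its co-countable subspaces are `𝒦_Ω`-Lindelöf), then this Lusin set has the property
`S₁(𝒦_Ω, 𝒦_Ω)`: the hereditary form of the question has a negative answer. In a model as asked for in the
question each Lusin set `X` has a countable subset `C` such that `X \ D` is not `𝒦_Ω`-Lindelöf for all
countable `D ⊇ C`.

Proof. (4) implies (3): given a sequence of members of `𝒦_Ω`, the selected sets are made to be dense
in the finite powers, in the sense that the `n`-tuples which are in one selected set whose closure
contains a given finite set `F ⊆ C` form a dense open subset of `X^n`; the exceptional countable set is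
added to `C` and treated by the next infinite part of the sequence. (1) implies (4): let `N ⊆ X^n` be
closed and nowhere dense, and (by localisation) such that the closures of its projections are disjoint.
By induction on `n` there is a countable set `C` such that all one-dimensional sections of `N` at
points off `C` are nowhere dense, so countable. Let `D ⊇ C` be countable and `X \ D` `𝒦_Ω`-Lindelöf. By
a fusion construction each finite subset of `X \ D` is in the closure of an open non-dense set `U` for
which `U^n` is disjoint from `N`. So these sets `U` form a member of `𝒦_Ω` for `X \ D`, and a countable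
subfamily of it gives the countable set in (4): its members have countable boundaries.
-/

set_option autoImplicit false

namespace Pool.Agent.Results.MP_74a7a6_gt.HereditaryCase

open Set Topology H608L

universe u

theorem result {X : Type u} [TopologicalSpace X] (hX : IsLusinSet X) :
    List.TFAE [
      ∀ C : Set X, C.Countable → ∃ D : Set X, C ⊆ D ∧ D.Countable ∧ KOmegaLindelof ↥Dᶜ,
      ∀ Y : Set X, KOmegaLindelof ↥Y,
      SOne X ∧ ∀ Y : Set X, SOne ↥Y,
      StronglyLusin X] := by
  obtain ⟨hsep, hmet, hunc, hL⟩ := hX
  let _ : MetricSpace X := TopologicalSpace.metrizableSpaceMetric X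
  have : SecondCountableTopology X := UniformSpace.secondCountable_of_separable X
  tfae_have 1 → 4 := by
    intro h
    rw [stronglyLusin_iff]
    intro n
    exact SL_all hunc hL h n (Fin n) (Fintype.card_fin n)
  tfae_have 4 → 3 := by
    intro h
    rw [stronglyLusin_iff] at h
    exact ⟨sOne_of_SL h, fun Y => sOne_of_SL (fun n => (h n).sub Y)⟩
  tfae_have 3 → 2 := fun h Y => kol_of_sOne (h.2 Y)
  tfae_have 2 → 1 := fun h C hC => ⟨C, Subset.rfl, hC, h Cᶜ⟩
  tfae_finish

end Pool.Agent.Results.MP_74a7a6_gt.HereditaryCase
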