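import Mathlib
import Pool.Agent.H507_L.Defs
import Pool.Agent.H507_L.Cov

set_option autoImplicit false

/-!
# `𝒦_Ω`-Lindelöf spaces of cardinality less than the covering number of the meagre ideal

If `X` is `𝒦_Ω`-Lindelöf and the Baire space is not the union of `|X|` meagre sets, then `X` has
`S₁(𝒦_Ω, 𝒦_Ω)`. So in a model as in Q1 every `𝒦_Ω`-Lindelöf Lusin set has cardinality at least
`cov(ℳ)`.

Proof. Replace the given families by countable ones and enumerate them, `V n m`. For a finite set
`F` the set of all `f : ℕ → ℕ` such that `F` is a subset of the closure of `V n (f n)` for some `n` is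
open and dense; some `f` is in all these sets.
-/

open Set Topology
open Pool.Agent.H507_L

namespace Pool.Agent.Results.MP_74a7a6_gt.SmallSpaces

universe u

theorem result (X : Type u) [TopologicalSpace X] (hX : KOmegaLindelof X)
    (hcov : ∀ F : X → Set (ℕ → ℕ), (∀ x, IsMeagre (F x)) → (⋃ x, F x) ≠ univ) : S1 X :=
  S1_of_lt_cov hX hcov

end Pool.Agent.Results.MP_74a7a6_gt.SmallSpaces
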